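import Pool.Agent.H559.SI.Tup

set_option autoImplicit false

/-!
# Twin primes and all prime patterns between consecutive powers, in the random sieve model

For every prime `q` a residue class `a q` modulo `q` is drawn uniformly and independently. The random primes are the
integers `v ≥ 3` which are, for all primes `q ≤ z v`, not in the class `0` modulo `q` if `q ≤ (log v) ^ c`, and not in the
class `a q` modulo `q` if `q > (log v) ^ c`. This is the model of Banks, Ford and Tao (*Large prime gaps and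
probabilistic models*) in which the small primes sieve out the class `0` as they do for the true primes. The sieving
limit `z` is any nondecreasing function for which `∏_{q ≤ z v} (1 - 1 / q)` is asymptotic to `1 / log v`; the choice `zBFT`
of Banks, Ford and Tao is one of them. The exponent `c` is any number larger than `1`.

For a finite nonempty set `H` of natural numbers let `S H` be the singular series of Hardy and Littlewood (it exists, and it is
positive if `H` is admissible). The theorem: almost surely, for ALL finite nonempty sets `H` at once,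
* for all `δ > 0` and `ε > 0`, for all large `X` and all `y` with `X ^ δ ≤ y ≤ X`, the number of the `n` in `(X, X + y]` for
  which all the `n + h`, `h ∈ H`, are random primes is `(S H ± ε) y / (log X) ^ |H|`;
* for all `d ≥ 2` the number of these patterns strictly between `n ^ d` and `(n + 1) ^ d` is asymptotic to
  `S H · d n ^ (d - 1) / (d log n) ^ |H|`, `n → ∞` (if `S H = 0`: smaller than this order).

For `H = {0, 2}` and `d = 3` the number `T n` of the pairs of random twin primes between `n ^ 3` and `(n + 1) ^ 3` satisfies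
`T n · log² n / n² → (2 / 3) ∏_{p > 2} (1 - 1 / (p - 1) ^ 2)`; so the analogue of Q2 (`T n → ∞`) holds in the model with the
asymptotic value which is expected for the true primes.
-/

open MeasureTheory ProbabilityTheory Filter Topology

namespace Pool.Agent.Results.MP_d610d0_nt.PatternsBetweenPowers

/-- `V m = ∏ (1 - 1 / q)` over the primes `q ≤ m` -/
noncomputable def V (m : ℕ) : ℝ := ∏ q ∈ (Finset.range (m + 1)).filter Nat.Prime, (1 - 1 / (q : ℝ))

/-- the classes `a q` are independent, and `a q` is uniform on `0, …, q - 1` for every prime `q` -/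
structure Model {Ω : Type} [MeasurableSpace Ω] (P : Measure Ω) (a : ℕ → Ω → ℕ) : Prop where
  measurable : ∀ q, Measurable (a q)
  independent : iIndepFun a P
  uniform : ∀ q, q.Prime → ∀ r < q, P.real {ω | a q ω = r} = 1 / q

/-- the sieving limit of Banks, Ford and Tao: the largest `m` with `∏_{q ≤ m} (1 - 1 / q)⁻¹ ≤ log n` -/
noncomputable def zBFT (n : ℕ) : ℕ := sSup {m : ℕ | (V m)⁻¹ ≤ Real.log n}

/-- the admissible sieving limits: the density of the random primes near `v` is asymptotic to `1 / log v` -/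
def Limit (z : ℕ → ℕ) : Prop := Monotone z ∧ Tendsto (fun v => V (z v) * Real.log v) atTop (𝓝 1)

open Classical in
/-- the set of the random primes of a sample -/
def R {Ω : Type} (z : ℕ → ℕ) (c : ℝ) (a : ℕ → Ω → ℕ) (ω : Ω) : Set ℕ :=
  {v | 3 ≤ v ∧ ∀ q ≤ z v, q.Prime → v % q ≠ if (q : ℝ) ≤ Real.log v ^ c then 0 else a q ω}

/-- the number of the residue classes of `H` modulo `p` -/
def nu (H : Finset ℕ) (p : ℕ) : ℕ := (H.image (· % p)).card

/-- the partial products of the singular series -/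
noncomputable def partialS (H : Finset ℕ) (x : ℕ) : ℝ :=
  ∏ p ∈ (Finset.range (x + 1)).filter Nat.Prime, (1 - (nu H p : ℝ) / p) / (1 - 1 / (p : ℝ)) ^ H.card

/-- the partial products of the twin prime constant -/
noncomputable def partialTwin (x : ℕ) : ℝ :=
  ∏ p ∈ ((Finset.range (x + 1)).filter Nat.Prime).erase 2, (1 - 1 / ((p : ℝ) - 1) ^ 2)

/-- the number of the `n` in `(X, X + y]` with all `n + h`, `h ∈ H`, in `A` -/
noncomputable def count (A : Set ℕ) (H : Finset ℕ) (X y : ℕ) : ℕ := {n : ℕ | X < n ∧ n ≤ X + y ∧ ∀ h ∈ H, n + h ∈ A}.ncard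

/-- the number of the patterns `m + H` in `A` strictly between `n ^ d` and `(n + 1) ^ d` -/
noncomputable def between (A : Set ℕ) (H : Finset ℕ) (d n : ℕ) : ℕ :=
  {m : ℕ | n ^ d < m ∧ ∀ h ∈ H, m + h < (n + 1) ^ d ∧ m + h ∈ A}.ncard

/-- the number of the pairs of twins of `A` between `n ^ 3` and `(n + 1) ^ 3` -/
noncomputable def T (A : Set ℕ) (n : ℕ) : ℕ := {p : ℕ | p ∈ A ∧ p + 2 ∈ A ∧ n ^ 3 < p ∧ p + 2 < (n + 1) ^ 3}.ncard

theorem result :
    (∃ (Ω : Type) (_ : MeasurableSpace Ω) (P : Measure Ω) (a : ℕ → Ω → ℕ), Model P a) ∧ Limit zBFT ∧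
    ∃ (S : Finset ℕ → ℝ) (C₂ : ℝ), (∀ H, Tendsto (partialS H) atTop (𝓝 (S H)) ∧
      ((∀ p : ℕ, p.Prime → nu H p < p) → 0 < S H)) ∧ Tendsto partialTwin atTop (𝓝 C₂) ∧ 0 < C₂ ∧
      ∀ z : ℕ → ℕ, Limit z → ∀ c : ℝ, 1 < c →
        ∀ (Ω : Type) [MeasurableSpace Ω] (P : Measure Ω) (a : ℕ → Ω → ℕ), Model P a →
          ∀ᵐ ω ∂P, (∀ H : Finset ℕ, H.Nonempty →
            (∀ δ ε : ℝ, 0 < δ → 0 < ε → ∀ᶠ X : ℕ in atTop, ∀ y : ℕ, (X : ℝ) ^ δ ≤ y → y ≤ X →
              |(count (R z c a ω) H X y : ℝ) * Real.log X ^ H.card / y - S H| ≤ ε) ∧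
            ∀ d : ℕ, 2 ≤ d → Tendsto (fun n : ℕ => (between (R z c a ω) H d n : ℝ) * (d * Real.log n) ^ H.card /
              (d * (n : ℝ) ^ (d - 1))) atTop (𝓝 (S H))) ∧
            Tendsto (fun n : ℕ => (T (R z c a ω) n : ℝ) * Real.log n ^ 2 / (n : ℝ) ^ 2) atTop (𝓝 (2 / 3 * C₂)) := by
  classical
  have hspec := fun H : Finset ℕ => (Pool.Agent.H559.SI.pS_conv H).choose_spec
  set S : Finset ℕ → ℝ := fun H => (Pool.Agent.H559.SI.pS_conv H).choose with hSdef
  -- the twin prime constant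
  have hnu2 : nu {0, 2} 2 = 1 := by decide
  have hnup : ∀ p : ℕ, p.Prime → p ≠ 2 → nu {0, 2} p = 2 := by
    intro p hp h2
    have h3 : 2 < p := lt_of_le_of_ne hp.two_le (Ne.symm h2)
    unfold nu
    rw [Finset.image_insert, Finset.image_singleton, Nat.zero_mod, Nat.mod_eq_of_lt h3, Finset.card_pair (by norm_num)]
  have hcard : ({0, 2} : Finset ℕ).card = 2 := by decide
  have htw : ∀ x : ℕ, 2 ≤ x → partialTwin x = partialS {0, 2} x / 2 := by
    intro x hx
    unfold partialTwin partialS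
    rw [← Finset.mul_prod_erase ((Finset.range (x + 1)).filter Nat.Prime) _
      (Finset.mem_filter.2 ⟨Finset.mem_range.2 (by omega : 2 < x + 1), Nat.prime_two⟩), hnu2, hcard]
    have h1 : (1 - ((1 : ℕ) : ℝ) / ((2 : ℕ) : ℝ)) / (1 - 1 / ((2 : ℕ) : ℝ)) ^ 2 = 2 := by norm_num
    rw [h1, mul_div_cancel_left₀ _ (by norm_num : (2 : ℝ) ≠ 0)]
    refine Finset.prod_congr rfl fun p hp => ?_
    rw [Finset.mem_erase, Finset.mem_filter] at hp
    rw [hnup p hp.2.2 hp.1]
    have h2 : (2 : ℝ) ≤ p := by exact_mod_cast hp.2.2.two_le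
    have h3 : (p : ℝ) ≠ 0 := by linarith
    have h4 : (p : ℝ) - 1 ≠ 0 := by linarith
    have h5 : 1 - 1 / (p : ℝ) ≠ 0 := by
      have : 1 / (p : ℝ) ≤ 1 / 2 := one_div_le_one_div_of_le (by norm_num) h2
      linarith
    push_cast
    field_simp
    ring
  have hadm : ∀ p : ℕ, p.Prime → nu {0, 2} p < p := by
    intro p hp
    by_cases h2 : p = 2
    · rw [h2, hnu2]
      norm_num
    · rw [hnup p hp h2]
      exact lt_of_le_of_ne hp.two_le (Ne.symm h2)
  refine ⟨?_, ⟨Pool.Agent.T2H32.BF.z0_mono, Pool.Agent.T2H32.BF.z0_lim⟩, S, S {0, 2} / 2, fun H => ?_, ?_, ?_, ?_⟩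
  · obtain ⟨Ω, i, P, a, h⟩ := Pool.Agent.T2H32.BF.exists_model
    exact ⟨Ω, i, P, a, h.measurable, h.independent, h.uniform⟩
  · exact ⟨(hspec H).1, (hspec H).2⟩
  · refine ((hspec {0, 2}).1.div_const 2).congr' ?_
    filter_upwards [eventually_ge_atTop 2] with x hx
    exact (htw x hx).symm
  · exact half_pos ((hspec {0, 2}).2 hadm)
  · intro z hz c hc Ω _ P a hmod
    have h : Pool.Agent.T2H32.BF.Model P a := ⟨hmod.measurable, hmod.independent, hmod.uniform⟩
    have hcut := Pool.Agent.H559.HY.cut_WW c hc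
    filter_upwards [Pool.Agent.H559.HY.ae_OK h z (Pool.Agent.H559.HY.WW c) hz hcut] with ω hω
    have e : R z c a ω = Pool.Agent.H559.HY.RS z (Pool.Agent.H559.HY.WW c) (fun p => a p ω) := by
      ext v
      simp only [R, Pool.Agent.H559.HY.RS, Set.mem_ofPred_eq]
      refine and_congr_right fun hv => ?_
      refine forall_congr' fun q => forall_congr' fun _ => forall_congr' fun _ => ?_
      have h0 : 0 ≤ Real.log v ^ c := Real.rpow_nonneg (Real.log_nonneg (by
        have : 1 ≤ v := by omega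
        exact_mod_cast this)) c
      have h1 : (q : ℝ) ≤ Real.log v ^ c ↔ q ≤ Pool.Agent.H559.HY.WW c v := (Nat.le_floor_iff h0).symm
      by_cases h2 : (q : ℝ) ≤ Real.log v ^ c
      · rw [if_pos h2, if_pos (h1.1 h2)]
      · rw [if_neg h2, if_neg (fun h3 => h2 (h1.2 h3))]
    rw [e]
    have hmain : ∀ H : Finset ℕ, H.Nonempty →
            (∀ δ ε : ℝ, 0 < δ → 0 < ε → ∀ᶠ X : ℕ in atTop, ∀ y : ℕ, (X : ℝ) ^ δ ≤ y → y ≤ X →
              |(count (Pool.Agent.H559.HY.RS z (Pool.Agent.H559.HY.WW c) (fun p => a p ω)) H X y : ℝ) *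
                Real.log X ^ H.card / y - S H| ≤ ε) ∧
            ∀ d : ℕ, 2 ≤ d → Tendsto (fun n : ℕ =>
              (between (Pool.Agent.H559.HY.RS z (Pool.Agent.H559.HY.WW c) (fun p => a p ω)) H d n : ℝ) *
              (d * Real.log n) ^ H.card / (d * (n : ℝ) ^ (d - 1))) atTop (𝓝 (S H)) := by
      intro H hH
      have h1 : ∀ δ ε : ℝ, 0 < δ → 0 < ε → ∀ᶠ X : ℕ in atTop, ∀ y : ℕ, (X : ℝ) ^ δ ≤ y → y ≤ X →
          |(Pool.Agent.H559.SI.cH (Pool.Agent.H559.HY.RS z (Pool.Agent.H559.HY.WW c) (fun p => a p ω)) H X y : ℝ) *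
            Real.log X ^ H.card / y - S H| ≤ ε := fun δ ε hδ hε =>
        Pool.Agent.H559.SI.tup z _ hz hcut _ hω H (S H) (hspec H).1 δ ε hδ hε
      exact ⟨h1, fun d hd => Pool.Agent.H559.SI.pow_tup _ H hH (S H) h1 d hd⟩
    refine ⟨hmain, ?_⟩
    have h1 := ((hmain {0, 2} (Finset.insert_nonempty _ _)).2 3 (by norm_num)).div_const 3
    have h2 : S {0, 2} / 3 = 2 / 3 * (S {0, 2} / 2) := by ring
    rw [h2] at h1
    refine h1.congr' ?_
    filter_upwards [eventually_ge_atTop 1] with n hn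
    have hn0 : (0 : ℝ) < n := by exact_mod_cast hn
    have h3 : between (Pool.Agent.H559.HY.RS z (Pool.Agent.H559.HY.WW c) (fun p => a p ω)) {0, 2} 3 n =
        T (Pool.Agent.H559.HY.RS z (Pool.Agent.H559.HY.WW c) (fun p => a p ω)) n := by
      unfold between T
      congr 1
      ext m
      simp only [Finset.mem_insert, Finset.mem_singleton, forall_eq_or_imp, forall_eq, add_zero, Set.mem_ofPred_eq]
      constructor
      · rintro ⟨a1, ⟨a2, a3⟩, a4, a5⟩
        exact ⟨a3, a5, a1, a4⟩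
      · rintro ⟨a1, a2, a3, a4⟩
        exact ⟨a3, ⟨by omega, a1⟩, a4, a2⟩
    rw [h3, hcard]
    push_cast
    field_simp

end Pool.Agent.Results.MP_d610d0_nt.PatternsBetweenPowers
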