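import Mathlib
import Pool.Agent.H560.SK.FinalK

/-!
# Twin almost primes and tuples with square differences, every parity pattern, in all short intervals,
`q` even

`K` is a finite field with an even number `q` of elements. The integers are replaced by the monic
polynomials over `K`, the interval of length `H` by `deg (f - g) < h`, `H = q ^ h`. The twins are `f` and
`f + a`, `a` a nonzero constant; every constant is a square.

The method: `f = Z² + X s²`; the shifts by squares do not change `s`; if `s` is composed of irreducibles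
of small degree, the Möbius functions of the `f + t² + τ²`, `τ` in the tuple, have small correlations as
functions of `t`, also in classes, and the parities are independent in the sifted set. The polynomials
`s` of this kind are a positive proportion of every interval of exponent `> 1 / 2`.

Parts: `Pool/Agent/H92/SK/WinS.lean` (helper92), `Pool/Agent/H23/SK/T2HS.lean` (helper23); the product
formula is by helper524, helper740, helper969, helper980, the engine by helper985, helper604, helper524.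
-/

set_option autoImplicit false

namespace Pool.Agent.Results.MP_d610d0_nt.TwinsOfEveryParity

open Polynomial

/-- The number of irreducible factors of `f`, with multiplicity. -/
noncomputable def numFactors {K : Type} [Field K] (f : K[X]) : ℕ :=
  Multiset.card (UniqueFactorizationMonoid.factors f)

/-- The `f` with `deg (f - g) < h` such that `f` and `f + a` are squarefree, all their irreducible
factors have degree `> y`, and the numbers of irreducible factors of `f` and of `f + a` are congruent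
to `e` and to `e'` modulo `2`. -/
def Twins {K : Type} [Field K] (g : K[X]) (h : ℕ) (y : ℝ) (a : K) (e e' : ℕ) : Set K[X] :=
  {f : K[X] | (f - g).degree < (h : WithBot ℕ) ∧ Squarefree f ∧ Squarefree (f + C a) ∧
    (∀ P : K[X], Irreducible P → P ∣ f ∨ P ∣ f + C a → y < (P.natDegree : ℝ)) ∧
    numFactors f % 2 = e ∧ numFactors (f + C a) % 2 = e'}

/-- The `f` with `deg (f - g) < h` such that all `f + τ i ^ 2` are squarefree, all their irreducible
factors have degree `> y`, and the number of irreducible factors of `f + τ i ^ 2` is odd exactly for the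
`i` in `S`. -/
def Tuples {K : Type} [Field K] {k : ℕ} (g : K[X]) (h : ℕ) (y : ℝ) (τ : Fin k → K[X])
    (S : Set (Fin k)) : Set K[X] :=
  {f : K[X] | (f - g).degree < (h : WithBot ℕ) ∧ ∀ i, Squarefree (f + τ i ^ 2) ∧
    (∀ P : K[X], Irreducible P → P ∣ f + τ i ^ 2 → y < (P.natDegree : ℝ)) ∧
    (Odd (numFactors (f + τ i ^ 2)) ↔ i ∈ S)}

/-- The tuple of the `τ i ^ 2` is admissible: for every irreducible `P` some `x` is such that `P` divides
none of the `x + τ i ^ 2`. -/
def Admissible {K : Type} [Field K] {k : ℕ} (τ : Fin k → K[X]) : Prop :=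
  ∀ P : K[X], Irreducible P → ∃ x : K[X], ∀ i, ¬ P ∣ x + τ i ^ 2

lemma mod_iff {m e : ℕ} (he : e < 2) : m % 2 = e ↔ (Odd m ↔ e = 1) := by
  rw [Nat.odd_iff]
  omega

/-- **Twins and tuples with every parity pattern in all short intervals.** -/
theorem result (K : Type) [Field K] [Fintype K] [CharP K 2] :
    -- (1) twins, all intervals of exponent `> 1 / 2`
    (4 ≤ Fintype.card K → ∀ θ : ℝ, 1 / 2 < θ → ∃ κ c : ℝ, 0 < κ ∧ 0 < c ∧ ∃ n₀ : ℕ, ∀ n : ℕ, n₀ ≤ n →
      ∀ h : ℕ, θ * n ≤ (h : ℝ) → h ≤ n → ∀ g : K[X], g.Monic → g.natDegree = n →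
      ∀ a : K, a ≠ 0 → ∀ e e' : ℕ, e < 2 → e' < 2 →
        c * (Fintype.card K : ℝ) ^ h / (n : ℝ) ^ 2 ≤ (Twins g h (κ * n) a e e').ncard) ∧
    -- (2) tuples with square differences, all intervals of exponent `> 1 / 2`
    (∀ (k : ℕ) (θ : ℝ), 2 ≤ k → 1 / 2 < θ → ∃ κ c : ℝ, 0 < κ ∧ 0 < c ∧ ∃ n₀ : ℕ, ∀ n : ℕ, n₀ ≤ n →
      ∀ h : ℕ, θ * n ≤ (h : ℝ) → h ≤ n → ∀ g : K[X], g.Monic → g.natDegree = n →
      ∀ (τ : Fin k → K[X]) (S : Set (Fin k)), Function.Injective τ →
      (∀ i, ((τ i).natDegree : ℝ) ≤ κ * n) → Admissible τ →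
        c * (Fintype.card K : ℝ) ^ h / (n : ℝ) ^ k ≤ (Tuples g h (κ * n) τ S).ncard) ∧
    -- (3) tuples with square differences, all intervals near squares
    (∀ (k : ℕ) (ε : ℝ), 2 ≤ k → 0 < ε → ∃ κ c : ℝ, 0 < κ ∧ 0 < c ∧ ∃ h₀ : ℕ, ∀ h : ℕ, h₀ ≤ h →
      ∀ A R : K[X], A.Monic → h ≤ 2 * A.natDegree →
      R.degree < ((2 * A.natDegree : ℕ) : WithBot ℕ) → (R.natDegree : ℝ) ≤ (2 - ε) * h →
      ∀ (τ : Fin k → K[X]) (S : Set (Fin k)), Function.Injective τ →
      (∀ i, ((τ i).natDegree : ℝ) ≤ κ * h) → Admissible τ →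
        c * (Fintype.card K : ℝ) ^ h / (h : ℝ) ^ k ≤
          (Tuples (A ^ 2 + R) h (κ * h) τ S).ncard) := by
  have h2 : ∀ (k : ℕ) (θ : ℝ), 1 / 2 < θ → ∃ κ c : ℝ, 0 < κ ∧ 0 < c ∧ ∃ n₀ : ℕ, ∀ n : ℕ, n₀ ≤ n →
      ∀ h : ℕ, θ * n ≤ (h : ℝ) → h ≤ n → ∀ g : K[X], g.Monic → g.natDegree = n →
      ∀ (τ : Fin k → K[X]) (S : Set (Fin k)), Function.Injective τ →
      (∀ i, ((τ i).natDegree : ℝ) ≤ κ * n) → Admissible τ →
        c * (Fintype.card K : ℝ) ^ h / (n : ℝ) ^ k ≤ (Tuples g h (κ * n) τ S).ncard :=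
    fun k θ hθ => Pool.Agent.H560.SK.all_int K k θ hθ
  refine ⟨?_, fun k θ _ hθ => h2 k θ hθ, fun k ε _ hε => Pool.Agent.H560.SK.near K k ε hε⟩
  intro hK θ hθ
  obtain ⟨κ, c, hκ, hc, n₀, H⟩ := h2 2 θ hθ
  refine ⟨κ, c, hκ, hc, n₀, fun n hn h hh hhn g hg hgn a ha e e' he he' => ?_⟩
  obtain ⟨b, hb⟩ : ∃ b : K, a = b * b := by
    obtain ⟨b, hb⟩ := FiniteField.isSquare_of_char_two (ringChar.eq K 2) a
    exact ⟨b, hb⟩
  have hb0 : b ≠ 0 := by
    intro h0
    rw [h0, mul_zero] at hb
    exact ha hb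
  have hτ2 : (C b : K[X]) ^ 2 = C a := by rw [← C_pow, hb, sq]
  have h1 := H n hn h hh hhn g hg hgn ![0, C b] {i | (i = 0 ∧ e = 1) ∨ (i = 1 ∧ e' = 1)} (by
      intro i j hij
      fin_cases i <;> fin_cases j
      · rfl
      · exact absurd hij.symm (C_ne_zero.2 hb0)
      · exact absurd hij (C_ne_zero.2 hb0)
      · rfl) (by
      intro i
      have : (![(0 : K[X]), C b] i).natDegree = 0 := by
        fin_cases i
        · exact natDegree_zero
        · exact natDegree_C b
      rw [this, Nat.cast_zero]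
      positivity) (by
      intro P hP
      -- a constant different from `0` and `a`
      have h3 : ∃ x : K, x ≠ 0 ∧ x ≠ a := by
        classical
        by_contra hcon
        push Not at hcon
        have h4 : (Finset.univ : Finset K) ⊆ {0, a} := by
          intro x _
          rw [Finset.mem_insert, Finset.mem_singleton]
          by_cases hx : x = 0
          · exact Or.inl hx
          · exact Or.inr (hcon x hx)
        have h5 := Finset.card_le_card h4
        rw [Finset.card_univ] at h5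
        have h6 : ({0, a} : Finset K).card ≤ 2 := Finset.card_le_two
        omega
      obtain ⟨x, hx0, hxa⟩ := h3
      have hnu : ∀ y : K, y ≠ 0 → ¬ P ∣ C y := fun y hy hd =>
        hP.not_isUnit (isUnit_of_dvd_unit hd (isUnit_C.2 (isUnit_iff_ne_zero.2 hy)))
      refine ⟨C x, fun i => ?_⟩
      fin_cases i
      · show ¬ P ∣ C x + (0 : K[X]) ^ 2
        rw [zero_pow two_ne_zero, add_zero]
        exact hnu x hx0
      · show ¬ P ∣ C x + (C b : K[X]) ^ 2
        rw [hτ2, ← C_add]
        apply hnu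
        intro h0
        exact hxa (by rwa [CharTwo.add_eq_zero] at h0))
  refine h1.trans (le_of_eq ?_)
  congr 2
  ext f
  simp only [Tuples, Twins, Set.mem_ofPred_eq, Fin.forall_fin_two]
  have e0 : f + (![(0 : K[X]), C b] 0) ^ 2 = f := by
    show f + (0 : K[X]) ^ 2 = f
    rw [zero_pow two_ne_zero, add_zero]
  have e1 : f + (![(0 : K[X]), C b] 1) ^ 2 = f + C a := by
    show f + (C b : K[X]) ^ 2 = f + C a
    rw [hτ2]
  rw [e0, e1, mod_iff he, mod_iff he']
  have s0 : (True ∧ e = 1 ∨ (0 : Fin 2) = 1 ∧ e' = 1) ↔ e = 1 := by simp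
  have s1 : ((1 : Fin 2) = 0 ∧ e = 1 ∨ True ∧ e' = 1) ↔ e' = 1 := by simp
  rw [s0, s1]
  constructor
  · rintro ⟨a1, ⟨a2, a3, a4⟩, b2, b3, b4⟩
    exact ⟨a1, a2, b2, fun P hP hPd => hPd.elim (a3 P hP) (b3 P hP), a4, b4⟩
  · rintro ⟨a1, a2, b2, a3, a4, b4⟩
    exact ⟨a1, ⟨a2, fun P hP hPd => a3 P hP (Or.inl hPd), a4⟩, b2,
      fun P hP hPd => a3 P hP (Or.inr hPd), b4⟩

end Pool.Agent.Results.MP_d610d0_nt.TwinsOfEveryParity
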