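import Pool.Agent.H540.TE.Lin

/-!
# Twin almost primes between consecutive cubes, the smaller one with two prime factors, along differences

Let `n` be large and let `A` be any set of integers in `[1, n ^ 2]` with at least `n ^ (2 - c)` elements.
The twin almost primes between the cubes can be found on the translates of the difference set of `A`,
for several pairs of consecutive cubes at the same time, and for one of the pairs of cubes the smaller twin has at most
two prime factors: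
let `m_0, ..., m_J` be integers in `[n, n ^ E]` with `m_0 ≤ n ^ (11 / 10)`, and let `x_j` be in
`(m_j ^ 3, m_j ^ 3 + m_j ^ 2]` such that `x_j` and `x_j + 2` have no prime factor below `n ^ κ`. Then for at least
`n ^ (4 - δ)` pairs `b < a` of elements of `A` all the numbers `q_j = x_j + (a - b)` and `q_j + 2` have at most
`R` prime factors, counted with multiplicity, all at least `n ^ c`, they
lie between `m_j ^ 3` and `(m_j + 1) ^ 3`, and `q_0` has at most two prime factors, both at least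
`n ^ (12 / 25)`. The constants `c` and `R` depend only on `J`, `E`, `κ` and `δ`.

Base points `x_j` of this kind exist in every interval of length `n ^ ε` (`κ` depends on `ε`). The
condition on the base points is necessary: if a small prime `p` divides `x_j`, all elements of `A` may be
multiples of `p`.

For `A` the set of all integers of `[1, n ^ 2]` and `J = 0` this is a classical sieve result. In general it is a
theorem of the type of Furstenberg and Sárközy with a power saving: the sets without such differences have at most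
`n ^ (2 - c)` elements. (For the differences `p - 1` such a bound is a theorem of B. Green.)

Method: the small primes (up to a small power of `n`) are sieved by a combination of additive characters with
majorising properties: with `t_p (m) = (K + 1) 1_{p | m} - x_p (m)`, where `x_p` is the indicator function of the
excluded classes and their negatives, `L = ∑_{d ≤ D} (1 - log d / log D) ∏_{p | d} t_p` and its analogues `L_p`
give `f = L ^ 2 - ∑_p x_p L_p ^ 2 ≤ 0` outside of the sifted set, and the Fourier coefficients of `f`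
which are not small are nonnegative, so that their contribution is bounded from below by the main term, however sparse
`A` is. The larger prime divisors of `q_0` are treated by the linear sieve with the weights of Richert, with the
level `n ^ (48 / 25)`: the mean free parts of their indicator functions, multiplied by `L ^ 2` or `L_p ^ 2`, are
dominated by functions with nonnegative coefficients, whose pair sums are bounded by the large sieve; the loss by the
sparsity of `A` is compensated by the gain from the size of these primes.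
-/

set_option autoImplicit false

namespace Pool.Agent.Results.MP_d610d0_nt.TwinsWithTwoFactors

open Finset Filter Pool.Agent.H540.PS

/-- All prime factors of `n` are at least `y`. -/
def Rough (y : ℝ) (n : ℤ) : Prop := ∀ p : ℕ, p.Prime → (p : ℤ) ∣ n → y ≤ (p : ℝ)

/-- `n` is positive and has at most `R` prime factors, counted with multiplicity, all at least `y`. -/
def AlmostPrime (R : ℕ) (y : ℝ) (n : ℤ) : Prop :=
  0 < n ∧ n.natAbs.primeFactorsList.length ≤ R ∧ Rough y n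

/-- `(q, q + 2)` is a pair of twin almost primes between the cubes of `m` and `m + 1`. -/
def TwinBetweenCubes (R : ℕ) (y : ℝ) (m q : ℤ) : Prop :=
  AlmostPrime R y q ∧ AlmostPrime R y (q + 2) ∧ m ^ 3 < q ∧ q + 2 < (m + 1) ^ 3

open Classical in
/-- The number of pairs `b < a` of elements of `A` such that `x j + (a - b)` and `x j + (a - b) + 2` are
twin almost primes between the cubes of `m j` and `m j + 1`, for all `j`, and `x 0 + (a - b)` has at most two
prime factors, all at least `w`. -/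
noncomputable def pairCount {J : ℕ} (R : ℕ) (y w : ℝ) (m x : Fin (J + 1) → ℤ) (A : Finset ℤ) : ℕ :=
  ((A ×ˢ A).filter (fun z : ℤ × ℤ => z.2 < z.1 ∧ AlmostPrime 2 w (x 0 + (z.1 - z.2)) ∧
    ∀ j, TwinBetweenCubes R y (m j) (x j + (z.1 - z.2)))).card

theorem ap_of (R : ℕ) (y : ℝ) (n : ℤ) (hn : 0 < n) (h : AP R y n.natAbs) : AlmostPrime R y n :=
  ⟨hn, h.2.1, fun p hp hd => h.2.2 p hp (Int.natCast_dvd.1 hd)⟩

/-- base points -/
theorem points (ε : ℝ) (hε : 0 < ε) : ∃ (κ : ℝ) (n₀ : ℕ), 0 < κ ∧ ∀ n : ℕ, n₀ ≤ n → ∀ M : ℤ,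
    ∃ x : ℤ, M < x ∧ (x : ℝ) ≤ M + (n : ℝ) ^ ε ∧ Rough ((n : ℝ) ^ κ) x ∧ Rough ((n : ℝ) ^ κ) (x + 2) := by
  obtain ⟨κ, n0, hκ, H⟩ := base_eps 2 ε hε
  refine ⟨κ, n0, hκ, fun n hn M => ?_⟩
  obtain ⟨t, h1, h2, h3⟩ := H n hn (fun p m => (p : ℤ) ∣ m ∨ (p : ℤ) ∣ m + 2) M (by
    intro p hp
    refine ⟨?_, ?_, ?_⟩
    · intro m m' h
      have h' : (p : ℤ) ∣ (m + 2) - (m' + 2) := by
        rw [show m + 2 - (m' + 2) = m - m' by ring]
        exact h
      exact or_congr (Int.dvd_iff_dvd_of_dvd_sub h) (Int.dvd_iff_dvd_of_dvd_sub h')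
    · rcases eq_or_ne p 3 with h | h
      · refine ⟨-1, ?_⟩
        rw [h]
        norm_num
      · rcases eq_or_ne p 2 with h2 | h2
        · refine ⟨1, ?_⟩
          rw [h2]
          norm_num
        · refine ⟨1, ?_⟩
          intro h3
          rcases h3 with h3 | h3
          · have h4 : (p : ℤ) ∣ ((1 : ℕ) : ℤ) := by exact_mod_cast h3
            have h5 := Nat.le_of_dvd one_pos (Int.natCast_dvd_natCast.1 h4)
            have := hp.two_le
            omega
          · have h4 : (p : ℤ) ∣ ((3 : ℕ) : ℤ) := by exact_mod_cast h3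
            have h5 := (Nat.prime_dvd_prime_iff_eq hp Nat.prime_three).1 (Int.natCast_dvd_natCast.1 h4)
            exact h h5
    · have e1 : (RR (fun m => (p : ℤ) ∣ m) p).card ≤ 1 := by
        have := RR_lin 1 0 p hp (by
          rintro ⟨h, _⟩
          have h4 : (p : ℤ) ∣ ((1 : ℕ) : ℤ) := by exact_mod_cast h
          have h5 := Nat.le_of_dvd one_pos (Int.natCast_dvd_natCast.1 h4)
          have := hp.two_le
          omega)
        simpa using this
      have e2 : (RR (fun m => (p : ℤ) ∣ m + 2) p).card ≤ 1 := by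
        have := RR_lin 1 2 p hp (by
          rintro ⟨h, _⟩
          have h4 : (p : ℤ) ∣ ((1 : ℕ) : ℤ) := by exact_mod_cast h
          have h5 := Nat.le_of_dvd one_pos (Int.natCast_dvd_natCast.1 h4)
          have := hp.two_le
          omega)
        simpa using this
      exact RR_or _ _ p 1 1 e1 e2)
  exact ⟨t, h1, h2, fun p hp hd => h3 p hp (Or.inl hd), fun p hp hd => h3 p hp (Or.inr hd)⟩

/-- **Twin almost primes between consecutive cubes, the smaller one with two prime factors, along differences.** -/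
theorem result :
    (∀ ε : ℝ, 0 < ε → ∃ (κ : ℝ) (n₀ : ℕ), 0 < κ ∧ ∀ n : ℕ, n₀ ≤ n → ∀ M : ℤ, ∃ x : ℤ,
      M < x ∧ (x : ℝ) ≤ M + (n : ℝ) ^ ε ∧ Rough ((n : ℝ) ^ κ) x ∧ Rough ((n : ℝ) ^ κ) (x + 2)) ∧
    ∀ (J E : ℕ) (κ δ : ℝ), 0 < κ → 0 < δ → ∃ (c : ℝ) (R n₀ : ℕ), 0 < c ∧ ∀ n : ℕ, n₀ ≤ n →
      ∀ (m x : Fin (J + 1) → ℤ) (A : Finset ℤ), (m 0 : ℝ) ≤ (n : ℝ) ^ (11 / 10 : ℝ) →
        (∀ j, (n : ℤ) ≤ m j ∧ m j ≤ (n : ℤ) ^ E ∧ m j ^ 3 < x j ∧ x j ≤ m j ^ 3 + m j ^ 2 ∧
          Rough ((n : ℝ) ^ κ) (x j) ∧ Rough ((n : ℝ) ^ κ) (x j + 2)) →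
        (∀ a ∈ A, 1 ≤ a ∧ a ≤ (n : ℤ) ^ 2) → (n : ℝ) ^ (2 - c) ≤ A.card →
        (n : ℝ) ^ (4 - δ) ≤ pairCount R ((n : ℝ) ^ c) ((n : ℝ) ^ (12 / 25 : ℝ)) m x A := by
  classical
  refine ⟨points, ?_⟩
  intro J E κ δ hκ hδ
  obtain ⟨c, R, N0, hc0, hcδ, H⟩ := linT ((J + 1) * 2) 2 (17 / 10) (2 * E + 2) (κ / 2) (δ / 2) (by norm_num)
    (by positivity) (by linarith) (by linarith) (by norm_num)
  obtain ⟨N1, HN1⟩ := eventually_atTop.1 ((tpow (show (0 : ℝ) < 1 / 10 by norm_num)).eventually_ge_atTop 3)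
  refine ⟨2 * c, R, max (max N0 N1) 2, by linarith, ?_⟩
  intro n hn m x A hm0 hmx hA hAc
  have hn2 : 2 ≤ n := (le_max_right _ _).trans hn
  have hn1 : 1 ≤ n := by omega
  have hn3 := HN1 n (((le_max_right _ _).trans (le_max_left _ _)).trans hn)
  have hNn : N0 ≤ n ^ 2 := (((le_max_left _ _).trans (le_max_left _ _)).trans hn).trans
    (Nat.le_self_pow (by norm_num) n)
  have hnr1 : (1 : ℝ) ≤ n := by exact_mod_cast hn1
  have hnr0 : (0 : ℝ) < n := by linarith
  obtain ⟨x', hx'⟩ : ∃ x' : Fin ((J + 1) * 2) → ℤ, x' = fun i =>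
    x (finProdFinEquiv.symm i).1 + 2 * ((finProdFinEquiv.symm i).2 : ℕ) := ⟨_, rfl⟩
  have hpos : ∀ j, 0 < m j ∧ 0 < x j := by
    intro j
    obtain ⟨h1, h2, h3, h4, h5, h6⟩ := hmx j
    have h7 : (0 : ℤ) < m j := by omega
    exact ⟨h7, lt_trans (by positivity : (0 : ℤ) < m j ^ 3) h3⟩
  have key := H (n ^ 2) hNn 1 (x 0) (fun _ => 1) x' A one_ne_zero (by
    obtain ⟨h1, h2, h3, h4, h5, h6⟩ := hmx 0
    obtain ⟨g1, g2⟩ := hpos 0
    rw [npow_rpow, Int.cast_one, abs_one, one_mul, abs_of_nonneg (by exact_mod_cast g2.le)]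
    have g1r : (1 : ℝ) ≤ m 0 := by exact_mod_cast g1
    have e1 : (x 0 : ℝ) ≤ (m 0 : ℝ) ^ 3 + (m 0 : ℝ) ^ 2 := by exact_mod_cast h4
    have e2 : (m 0 : ℝ) ^ 2 ≤ (m 0 : ℝ) ^ 3 := pow_le_pow_right₀ g1r (by norm_num)
    have e3 : (m 0 : ℝ) ^ 3 ≤ (n : ℝ) ^ (33 / 10 : ℝ) := by
      calc (m 0 : ℝ) ^ 3 ≤ ((n : ℝ) ^ (11 / 10 : ℝ)) ^ 3 := pow_le_pow_left₀ (by linarith) hm0 3
        _ = (n : ℝ) ^ (33 / 10 : ℝ) := by
            rw [← Real.rpow_natCast, ← Real.rpow_mul hnr0.le]
            norm_num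
    have e4 : (((n ^ 2 : ℕ)) : ℝ) ≤ (n : ℝ) ^ (33 / 10 : ℝ) := by
      push_cast
      rw [← Real.rpow_natCast]
      exact Real.rpow_le_rpow_of_exponent_le hnr1 (by norm_num)
    calc (x 0 : ℝ) + (((n ^ 2 : ℕ)) : ℝ) ≤ 3 * (n : ℝ) ^ (33 / 10 : ℝ) := by linarith
      _ ≤ (n : ℝ) ^ (1 / 10 : ℝ) * (n : ℝ) ^ (33 / 10 : ℝ) :=
          mul_le_mul_of_nonneg_right hn3 (by positivity)
      _ = (n : ℝ) ^ (((2 : ℕ) : ℝ) * (17 / 10)) := by
          rw [← Real.rpow_add hnr0]
          norm_num) (by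
    intro p hp hd
    rw [npow_rpow]
    have e : ((2 : ℕ) : ℝ) * (κ / 2) = κ := by push_cast; ring
    rw [e]
    obtain ⟨h1, h2, h3, h4, h5, h6⟩ := hmx 0
    refine ⟨h5 p hp hd, ?_⟩
    intro h7
    have h8 := Int.natCast_dvd.1 h7
    exact hp.one_lt.ne' (Nat.dvd_one.1 h8)) (by
    intro i
    rw [npow_rpow]
    have hb : (2 : ℝ) ≤ n := by exact_mod_cast hn2
    obtain ⟨j, hj⟩ : ∃ j, j = (finProdFinEquiv.symm i).1 := ⟨_, rfl⟩
    obtain ⟨s, hs⟩ : ∃ s, s = (finProdFinEquiv.symm i).2 := ⟨_, rfl⟩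
    obtain ⟨h1, h2, h3, h4, h5, h6⟩ := hmx j
    obtain ⟨g1, g2⟩ := hpos j
    have hxi : x' i = x j + 2 * (s : ℕ) := by rw [hx', hj, hs]
    have e : ((2 : ℕ) : ℝ) * (2 * (E : ℝ) + 2) = ((4 * E + 4 : ℕ) : ℝ) := by push_cast; ring
    rw [e, Real.rpow_natCast]
    constructor
    · rw [Int.cast_one, abs_one]
      exact one_le_pow₀ (by linarith)
    · have hs2 : (s : ℕ) < 2 := s.isLt
      have hle : x' i ≤ (n : ℤ) ^ (4 * E + 4) := by
        rw [hxi]
        have h7 : m j ^ 3 ≤ ((n : ℤ) ^ E) ^ 3 := pow_le_pow_left₀ g1.le h2 3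
        have h8 : m j ^ 2 ≤ m j ^ 3 := pow_le_pow_right₀ (by omega) (by norm_num)
        have h9 : ((n : ℤ) ^ E) ^ 3 ≤ (n : ℤ) ^ (4 * E) := by
          rw [← pow_mul]
          exact pow_le_pow_right₀ (by exact_mod_cast hn1) (by omega)
        have h10 : (2 : ℤ) ^ 4 ≤ (n : ℤ) ^ 4 := pow_le_pow_left₀ (by norm_num) (by exact_mod_cast hn2) 4
        have h11 : (1 : ℤ) ≤ (n : ℤ) ^ (4 * E) := one_le_pow₀ (by exact_mod_cast hn1)
        rw [pow_add]
        have h12 : (s : ℕ) ≤ 1 := by omega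
        have h13 : ((s : ℕ) : ℤ) ≤ 1 := by exact_mod_cast h12
        nlinarith
      have h0 : 0 ≤ x' i := by rw [hxi]; positivity
      rw [abs_of_nonneg (by exact_mod_cast h0)]
      exact_mod_cast hle) (by
    intro i p hp hd
    rw [npow_rpow]
    have e : ((2 : ℕ) : ℝ) * (κ / 2) = κ := by push_cast; ring
    rw [e]
    obtain ⟨h1, h2, h3, h4, h5, h6⟩ := hmx (finProdFinEquiv.symm i).1
    obtain ⟨s, hs⟩ : ∃ s, s = (finProdFinEquiv.symm i).2 := ⟨_, rfl⟩
    rw [hx'] at hd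
    simp only at hd
    rw [← hs] at hd
    have hs2 : (s : ℕ) = 0 ∨ (s : ℕ) = 1 := by have := s.isLt; omega
    rcases hs2 with h | h
    · rw [h] at hd
      apply h5 p hp
      simpa using hd
    · rw [h] at hd
      apply h6 p hp
      simpa using hd) (by
    intro a ha
    obtain ⟨h1, h2⟩ := hA a ha
    refine ⟨h1, ?_⟩
    push_cast
    exact h2) (by
    rw [npow_rpow]
    have e : ((2 : ℕ) : ℝ) * (1 - c) = 2 - 2 * c := by push_cast; ring
    rw [e]
    exact hAc)
  rw [npow_rpow] at key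
  have e : ((2 : ℕ) : ℝ) * (2 - δ / 2) = 4 - δ := by push_cast; ring
  rw [e] at key
  refine key.trans ?_
  unfold pairCount
  apply Nat.cast_le.2
  apply card_le_card
  rintro ⟨a, b⟩ hz
  rw [mem_filter, mem_product] at hz ⊢
  obtain ⟨⟨ha, hb⟩, hlt, hall⟩ := hz
  simp only at ha hb hlt hall ⊢
  obtain ⟨hmain, hall⟩ := hall
  refine ⟨⟨ha, hb⟩, hlt, ?_, ?_⟩
  · rw [npow_rpow, one_mul] at hmain
    have e3 : ((2 : ℕ) : ℝ) * (6 / 25) = 12 / 25 := by norm_num
    rw [e3, add_comm] at hmain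
    refine ap_of _ _ _ ?_ hmain
    have := (hpos 0).2
    linarith
  intro j
  obtain ⟨h1, h2, h3, h4, h5, h6⟩ := hmx j
  obtain ⟨g1, g2⟩ := hpos j
  have hab : a - b < (n : ℤ) ^ 2 := by
    have := (hA a ha).2
    have := (hA b hb).1
    linarith
  have k0 := hall (finProdFinEquiv (j, 0))
  have k1 := hall (finProdFinEquiv (j, 1))
  rw [hx'] at k0 k1
  simp only [Equiv.symm_apply_apply] at k0 k1
  rw [npow_rpow] at k0 k1
  have e2 : ((2 : ℕ) : ℝ) * c = 2 * c := by push_cast; ring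
  rw [e2] at k0 k1
  have z0 : 1 * (a - b) + (x j + 2 * (((0 : Fin 2) : ℕ) : ℤ)) = x j + (a - b) := by
    rw [Fin.val_zero]
    push_cast
    ring
  have z1 : 1 * (a - b) + (x j + 2 * (((1 : Fin 2) : ℕ) : ℤ)) = x j + (a - b) + 2 := by
    rw [Fin.val_one]
    push_cast
    ring
  rw [z0] at k0
  rw [z1] at k1
  have hn2m : (n : ℤ) ^ 2 ≤ m j ^ 2 := pow_le_pow_left₀ (by positivity) h1 2
  refine ⟨ap_of _ _ _ (by linarith) k0, ap_of _ _ _ (by linarith) k1, by linarith, ?_⟩
  have : (m j + 1) ^ 3 = m j ^ 3 + 3 * m j ^ 2 + 3 * m j + 1 := by ring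
  nlinarith

end Pool.Agent.Results.MP_d610d0_nt.TwinsWithTwoFactors
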